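import Pool.Agent.Q190.LA.Sign
import Pool.Agent.H581R2.SARun

set_option autoImplicit false
set_option linter.unusedSectionVars false

/-!
# Orbits of automorphism groups of finite-dimensional algebras are sign-determined
-/

open Set Filter Topology Pool.Agent.H581R2

namespace Pool.Agent.Q190.LA

lemma signDet_of_sap {ι : Type} {X : Type*} [TopologicalSpace X] {p : (ι → ℝ) → Prop}
    (hp : SAP p) {φ : X → ι → ℝ} (hφ : Continuous φ) : SignDet {x | p (φ x)} := by
  classical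
  obtain ⟨Q, hQ⟩ := hp
  refine ⟨Q.card, fun j x => MvPolynomial.aeval (φ x) (Q.equivFin.symm j : MvPolynomial ι ℚ),
    fun j => ?_, fun v w h hv => ?_⟩
  · have h1 : (fun x => MvPolynomial.aeval (φ x) (Q.equivFin.symm j : MvPolynomial ι ℚ)) =
        fun x => MvPolynomial.eval (φ x)
          (MvPolynomial.map (algebraMap ℚ ℝ) (Q.equivFin.symm j : MvPolynomial ι ℚ)) := by
      funext x
      rw [MvPolynomial.aeval_def, MvPolynomial.eval₂_eq_eval_map]
    show Continuous (fun x => MvPolynomial.aeval (φ x) (Q.equivFin.symm j : MvPolynomial ι ℚ))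
    rw [h1]
    exact (MvPolynomial.continuous_eval _).comp hφ
  · refine hQ (φ v) (φ w) (fun q hq => ?_) hv
    have := h (Q.equivFin ⟨q, hq⟩)
    simpa using this

lemma sap_exists {α κ : Type} [Finite κ] {p : (α ⊕ κ → ℝ) → Prop} (hp : SAP p) :
    SAP (fun v : α → ℝ => ∃ x : κ → ℝ, p (Sum.elim v x)) := by
  obtain ⟨n, ⟨e⟩⟩ := Finite.exists_equiv_fin κ
  let φ : (α ⊕ Fin n → ℝ) → (α ⊕ κ → ℝ) := fun u =>
    Sum.elim (fun a => u (Sum.inl a)) (fun k => u (Sum.inr (e k)))
  have hφ : ∀ k, PF (fun u => φ u k) := by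
    rintro (a | k)
    · exact PF.coord _
    · exact PF.coord _
  refine SAP.congr (SAP.exists_block n (hp.preimage hφ)) fun v => ?_
  constructor
  · rintro ⟨x, hx⟩
    refine ⟨fun i => x (e.symm i), ?_⟩
    have : φ (Sum.elim v fun i => x (e.symm i)) = Sum.elim v x := by
      funext k
      rcases k with a | k
      · rfl
      · simp [φ]
    rw [this]
    exact hx
  · rintro ⟨x, hx⟩
    exact ⟨fun k => x (e k), hx⟩

lemma sap_forall {ι α : Type} [Fintype α] {p : α → (ι → ℝ) → Prop} (h : ∀ a, SAP (p a)) :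
    SAP (fun v => ∀ a, p a v) :=
  (SAP.forall_mem (Finset.univ : Finset α) fun a _ => h a).congr fun v => by simp

/-- parameters: structure constants, the imaginary unit, the source and the target -/
abbrev Par (N : ℕ) : Type := ((Fin N × Fin N × Fin N) ⊕ (Fin N × Fin N)) ⊕ (Fin N ⊕ Fin N)
/-- unknowns: a matrix and its inverse -/
abbrev Unk (N : ℕ) : Type := (Fin N × Fin N) ⊕ (Fin N × Fin N)

/-- The polynomial system: `w` is an automorphism (with its inverse) taking `x` to `y`. -/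
def Sys {N : ℕ} (z : Par N → ℝ) (w : Unk N → ℝ) : Prop :=
  (∀ i j, ∑ k, w (.inl (i, k)) * w (.inr (k, j)) = if i = j then 1 else 0) ∧
  (∀ i j, ∑ k, w (.inr (i, k)) * w (.inl (k, j)) = if i = j then 1 else 0) ∧
  (∀ i j, ∑ k, w (.inl (i, k)) * z (.inl (.inr (k, j))) =
    ∑ k, z (.inl (.inr (i, k))) * w (.inl (k, j))) ∧
  (∀ i j l, ∑ k, z (.inl (.inl (i, j, k))) * w (.inl (l, k)) =
    ∑ a, ∑ c, w (.inl (a, i)) * w (.inl (c, j)) * z (.inl (.inl (a, c, l)))) ∧
  (∀ i, ∑ k, w (.inl (i, k)) * z (.inr (.inl k)) = z (.inr (.inr i)))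

lemma sap_sys {N : ℕ} : SAP (fun u : Par N ⊕ Unk N → ℝ =>
    Sys (fun i => u (.inl i)) (fun i => u (.inr i))) := by
  unfold Sys
  refine SAP.and ?_ (SAP.and ?_ (SAP.and ?_ (SAP.and ?_ ?_)))
  · refine sap_forall fun i => sap_forall fun j => SAP.eq ?_ ?_
    · exact PF.sum _ fun k _ => (PF.coord _).mul (PF.coord _)
    · split_ifs
      · exact PF.one
      · exact PF.zero
  · refine sap_forall fun i => sap_forall fun j => SAP.eq ?_ ?_
    · exact PF.sum _ fun k _ => (PF.coord _).mul (PF.coord _)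
    · split_ifs
      · exact PF.one
      · exact PF.zero
  · refine sap_forall fun i => sap_forall fun j => SAP.eq ?_ ?_
    · exact PF.sum _ fun k _ => (PF.coord _).mul (PF.coord _)
    · exact PF.sum _ fun k _ => (PF.coord _).mul (PF.coord _)
  · refine sap_forall fun i => sap_forall fun j => sap_forall fun l => SAP.eq ?_ ?_
    · exact PF.sum _ fun k _ => (PF.coord _).mul (PF.coord _)
    · exact PF.sum _ fun a _ => PF.sum _ fun c _ => ((PF.coord _).mul (PF.coord _)).mul (PF.coord _)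
  · refine sap_forall fun i => SAP.eq ?_ (PF.coord _)
    exact PF.sum _ fun k _ => (PF.coord _).mul (PF.coord _)

lemma sap_exSys {N : ℕ} : SAP (fun z : Par N → ℝ => ∃ w : Unk N → ℝ, Sys z w) :=
  (sap_exists (sap_sys (N := N))).congr fun _ => Iff.rfl

section alg

variable {𝕜 : Type*} [RCLike 𝕜] {A : Type*} [NormedAddCommGroup A] [NormedSpace 𝕜 A]

/-- The automorphism group of the algebra `(A, μ)`. -/
def autGrp (μ : A →ₗ[𝕜] A →ₗ[𝕜] A) : Subgroup (A ≃ₗ[𝕜] A) where
  carrier := {ψ | ∀ a b, ψ (μ a b) = μ (ψ a) (ψ b)}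
  mul_mem' := by
    intro ψ χ hψ hχ a b
    show ψ (χ (μ a b)) = μ (ψ (χ a)) (ψ (χ b))
    rw [hχ, hψ]
  one_mem' := fun a b => rfl
  inv_mem' := by
    intro ψ hψ a b
    show ψ.symm (μ a b) = μ (ψ.symm a) (ψ.symm b)
    rw [LinearEquiv.symm_apply_eq, hψ, LinearEquiv.apply_symm_apply, LinearEquiv.apply_symm_apply]

variable [NormedSpace ℝ A] [IsScalarTower ℝ 𝕜 A] [FiniteDimensional ℝ A]

/-- parameters of the algebra in a real basis -/
noncomputable def par {N : ℕ} (b : Module.Basis (Fin N) ℝ A) (μ : A →ₗ[𝕜] A →ₗ[𝕜] A) (x y : A) :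
    Par N → ℝ :=
  Sum.elim (Sum.elim (fun t => b.repr (μ (b t.1) (b t.2.1)) t.2.2)
    (fun t => b.repr ((RCLike.I : 𝕜) • b t.2) t.1)) (Sum.elim (fun i => b.repr x i) (fun i => b.repr y i))

/-- multiplication by the imaginary unit, as a real linear map -/
noncomputable def Imul (𝕜 : Type*) [RCLike 𝕜] (A : Type*) [NormedAddCommGroup A] [NormedSpace 𝕜 A]
    [NormedSpace ℝ A] [IsScalarTower ℝ 𝕜 A] : A →ₗ[ℝ] A where
  toFun z := (RCLike.I : 𝕜) • z
  map_add' := smul_add _
  map_smul' := fun r z => by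
    rw [RingHom.id_apply, ← smul_one_smul 𝕜 r z, ← smul_one_smul 𝕜 r ((RCLike.I : 𝕜) • z),
      smul_comm]

/-- the product as a real bilinear map -/
noncomputable def mur (μ : A →ₗ[𝕜] A →ₗ[𝕜] A) : A →ₗ[ℝ] A →ₗ[ℝ] A :=
  LinearMap.mk₂ ℝ (fun a c => μ a c) (fun a a' c => by rw [map_add, LinearMap.add_apply])
    (fun r a c => by rw [← smul_one_smul 𝕜 r a, map_smul, LinearMap.smul_apply, smul_one_smul])
    (fun a c c' => by rw [map_add])
    (fun r a c => by rw [← smul_one_smul 𝕜 r c, map_smul, smul_one_smul])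

lemma mur_apply (μ : A →ₗ[𝕜] A →ₗ[𝕜] A) (a c : A) : mur μ a c = μ a c := rfl

lemma repr_mur {N : ℕ} (b : Module.Basis (Fin N) ℝ A) (μ : A →ₗ[𝕜] A →ₗ[𝕜] A) (u v : A) (l : Fin N) :
    b.repr (μ u v) l =
      ∑ a, ∑ c, b.repr u a * b.repr v c * b.repr (μ (b a) (b c)) l := by
  rw [← mur_apply]
  conv_lhs => rw [← b.sum_repr u, ← b.sum_repr v]
  simp only [map_sum, LinearMap.sum_apply, map_smul, LinearMap.smul_apply, Finsupp.coe_finsetSum,
    Finset.sum_apply, Finsupp.smul_apply, smul_eq_mul, Finset.mul_sum, mur_apply, mul_assoc]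
  rw [Finset.sum_comm]
  refine Finset.sum_congr rfl fun a _ => Finset.sum_congr rfl fun c _ => ?_
  ring

lemma sys_of_aut {N : ℕ} (b : Module.Basis (Fin N) ℝ A) (μ : A →ₗ[𝕜] A →ₗ[𝕜] A) (x : A)
    {ψ : A ≃ₗ[𝕜] A} (hψ : ψ ∈ autGrp μ) : ∃ w, Sys (par b μ x (ψ x)) w := by
  set g : A →ₗ[ℝ] A := (ψ : A →ₗ[𝕜] A).restrictScalars ℝ with hg
  set h : A →ₗ[ℝ] A := (ψ.symm : A →ₗ[𝕜] A).restrictScalars ℝ with hh
  have hgh : g ∘ₗ h = LinearMap.id := by ext v; simp [hg, hh]
  have hhg : h ∘ₗ g = LinearMap.id := by ext v; simp [hg, hh]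
  have hgI : g ∘ₗ Imul 𝕜 A = Imul 𝕜 A ∘ₗ g := by
    ext v
    show ψ ((RCLike.I : 𝕜) • v) = (RCLike.I : 𝕜) • ψ v
    rw [map_smul]
  set Gm := LinearMap.toMatrix b b g with hGm
  set Hm := LinearMap.toMatrix b b h with hHm
  have hGap : ∀ i k, Gm i k = b.repr (ψ (b k)) i := fun i k => by
    rw [hGm, LinearMap.toMatrix_apply]; rfl
  have hIap : ∀ i k, LinearMap.toMatrix b b (Imul 𝕜 A) i k = b.repr ((RCLike.I : 𝕜) • b k) i :=
    fun i k => by rw [LinearMap.toMatrix_apply]; rfl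
  have e1 : Gm * Hm = 1 := by rw [hGm, hHm, ← LinearMap.toMatrix_comp, hgh, LinearMap.toMatrix_id]
  have e2 : Hm * Gm = 1 := by rw [hGm, hHm, ← LinearMap.toMatrix_comp, hhg, LinearMap.toMatrix_id]
  have e3 : Gm * LinearMap.toMatrix b b (Imul 𝕜 A) = LinearMap.toMatrix b b (Imul 𝕜 A) * Gm := by
    rw [hGm, ← LinearMap.toMatrix_comp, ← LinearMap.toMatrix_comp, hgI]
  have hrep : ∀ (v : A) (l : Fin N), b.repr (ψ v) l = ∑ k, Gm l k * b.repr v k := by
    intro v l
    exact (congrFun (LinearMap.toMatrix_mulVec_repr b b g v) l).symm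
  refine ⟨Sum.elim (fun t => Gm t.1 t.2) (fun t => Hm t.1 t.2), ?_, ?_, ?_, ?_, ?_⟩
  · intro i j
    have := congrFun (congrFun e1 i) j
    rw [Matrix.mul_apply, Matrix.one_apply] at this
    exact this
  · intro i j
    have := congrFun (congrFun e2 i) j
    rw [Matrix.mul_apply, Matrix.one_apply] at this
    exact this
  · intro i j
    have := congrFun (congrFun e3 i) j
    rw [Matrix.mul_apply, Matrix.mul_apply] at this
    simp only [hIap] at this
    exact this
  · intro i j l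
    show ∑ k, b.repr (μ (b i) (b j)) k * Gm l k = ∑ a, ∑ c, Gm a i * Gm c j * b.repr (μ (b a) (b c)) l
    have h1 := hrep (μ (b i) (b j)) l
    rw [hψ, repr_mur] at h1
    simp only [hGap] at h1 ⊢
    rw [h1]
    exact Finset.sum_congr rfl fun k _ => mul_comm _ _
  · intro i
    exact (hrep x i).symm

lemma aut_of_sys {N : ℕ} (b : Module.Basis (Fin N) ℝ A) (μ : A →ₗ[𝕜] A →ₗ[𝕜] A) (x y : A)
    {w : Unk N → ℝ} (hw : Sys (par b μ x y) w) : ∃ ψ ∈ autGrp μ, ψ x = y := by
  obtain ⟨h1, h2, h3, h4, h5⟩ := hw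
  set Gm : Matrix (Fin N) (Fin N) ℝ := fun i k => w (.inl (i, k)) with hGm
  set Hm : Matrix (Fin N) (Fin N) ℝ := fun i k => w (.inr (i, k)) with hHm
  set g : A →ₗ[ℝ] A := Matrix.toLin b b Gm with hg
  set h : A →ₗ[ℝ] A := Matrix.toLin b b Hm with hh
  have e1 : Gm * Hm = 1 := by
    ext i j
    rw [Matrix.mul_apply, Matrix.one_apply]
    exact h1 i j
  have e2 : Hm * Gm = 1 := by
    ext i j
    rw [Matrix.mul_apply, Matrix.one_apply]
    exact h2 i j
  have hgh : g ∘ₗ h = LinearMap.id := by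
    rw [hg, hh, ← Matrix.toLin_mul, e1, Matrix.toLin_one]
  have hhg : h ∘ₗ g = LinearMap.id := by
    rw [hg, hh, ← Matrix.toLin_mul, e2, Matrix.toLin_one]
  have hIap : ∀ i k, LinearMap.toMatrix b b (Imul 𝕜 A) i k = b.repr ((RCLike.I : 𝕜) • b k) i :=
    fun i k => by rw [LinearMap.toMatrix_apply]; rfl
  have e3 : Gm * LinearMap.toMatrix b b (Imul 𝕜 A) = LinearMap.toMatrix b b (Imul 𝕜 A) * Gm := by
    ext i j
    rw [Matrix.mul_apply, Matrix.mul_apply]
    simp only [hIap]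
    exact h3 i j
  have hgI : g ∘ₗ Imul 𝕜 A = Imul 𝕜 A ∘ₗ g := by
    have h6 := congrArg (Matrix.toLin b b) e3
    rw [Matrix.toLin_mul b b b, Matrix.toLin_mul b b b, Matrix.toLin_toMatrix] at h6
    exact h6
  have hgI' : ∀ v, g ((RCLike.I : 𝕜) • v) = (RCLike.I : 𝕜) • g v := fun v =>
    LinearMap.congr_fun hgI v
  have hrep : ∀ (v : A) (l : Fin N), b.repr (g v) l = ∑ k, Gm l k * b.repr v k := by
    intro v l
    have h6 := congrFun (LinearMap.toMatrix_mulVec_repr b b g v) l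
    rw [hg, LinearMap.toMatrix_toLin] at h6
    exact h6.symm
  have hrepb : ∀ (a l : Fin N), b.repr (g (b a)) l = Gm l a := by
    intro a l
    rw [hrep, Finset.sum_eq_single a]
    · simp
    · intro k _ hk
      rw [b.repr_self, Finsupp.single_eq_of_ne (by simpa using hk)]
      simp
    · simp
  have hsm : ∀ (c : 𝕜) (v : A), g (c • v) = c • g v := by
    intro c v
    have hc : c = ((RCLike.re c : ℝ) : 𝕜) + ((RCLike.im c : ℝ) : 𝕜) * RCLike.I :=
      (RCLike.re_add_im c).symm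
    have hr : ∀ (r : ℝ) (u : A), ((r : ℝ) : 𝕜) • u = r • u := by
      intro r u
      rw [← smul_one_smul 𝕜 r u]
      congr 1
      rw [RCLike.real_smul_eq_coe_mul, mul_one]
    rw [hc, add_smul, mul_smul, hr, hr, map_add, map_smul, map_smul, hgI', add_smul, mul_smul,
      hr, hr]
  let ψ : A ≃ₗ[𝕜] A :=
    { toFun := g
      map_add' := fun u v => map_add g u v
      map_smul' := fun c v => hsm c v
      invFun := h
      left_inv := fun v => LinearMap.congr_fun hhg v
      right_inv := fun v => LinearMap.congr_fun hgh v }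
  have hψ : ∀ v, ψ v = g v := fun v => rfl
  refine ⟨ψ, ?_, ?_⟩
  · have hB : g ∘ₗ (0 : A →ₗ[ℝ] A) = 0 := by simp
    have key : ∀ i j, g (μ (b i) (b j)) = μ (g (b i)) (g (b j)) := by
      intro i j
      refine b.repr.injective (Finsupp.ext fun l => ?_)
      rw [hrep, repr_mur]
      simp only [hrepb]
      have := h4 i j l
      rw [← show ∑ a, ∑ c, Gm a i * Gm c j * b.repr (μ (b a) (b c)) l =
        ∑ a, ∑ c, w (.inl (a, i)) * w (.inl (c, j)) * par b μ x y (.inl (.inl (a, c, l))) from rfl]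
        at this
      rw [← this]
      exact Finset.sum_congr rfl fun k _ => mul_comm _ _
    have hbil : (mur μ).compr₂ g = (mur μ).compl₁₂ g g := by
      refine LinearMap.ext_basis b b fun i j => ?_
      exact key i j
    intro u v
    exact LinearMap.congr_fun (LinearMap.congr_fun hbil u) v
  · refine b.repr.injective (Finsupp.ext fun l => ?_)
    rw [hψ, hrep]
    exact h5 l

/-- The orbits of the automorphism group are sign-determined. -/
theorem signDet_orbit (μ : A →ₗ[𝕜] A →ₗ[𝕜] A) (x : A) : SignDet (MulAction.orbit (autGrp μ) x) := by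
  set b := Module.finBasis ℝ A
  have h1 : MulAction.orbit (autGrp μ) x = {y | ∃ w, Sys (par b μ x y) w} := by
    ext y
    constructor
    · rintro ⟨ψ, rfl⟩
      exact sys_of_aut b μ x ψ.2
    · rintro ⟨w, hw⟩
      obtain ⟨ψ, hψ, rfl⟩ := aut_of_sys b μ x y hw
      exact ⟨⟨ψ, hψ⟩, rfl⟩
  rw [h1]
  refine signDet_of_sap (φ := par b μ x) sap_exSys ?_
  refine continuous_pi fun i => ?_
  rcases i with (t | t) | (t | t)
  · exact continuous_const
  · exact continuous_const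
  · exact continuous_const
  · exact (LinearMap.continuous_of_finiteDimensional
      ((LinearMap.proj t : (Fin _ → ℝ) →ₗ[ℝ] ℝ) ∘ₗ (b.equivFun : A →ₗ[ℝ] (Fin _ → ℝ))))

end alg

end Pool.Agent.Q190.LA
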