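import Mathlib

set_option autoImplicit false

/-!
# Sets determined by the signs of finitely many continuous functions, and orbits
-/

open Set Filter Topology

namespace Pool.Agent.Q190.LA

/-- membership is determined by the signs of finitely many continuous functions -/
def SignDet {X : Type*} [TopologicalSpace X] (S : Set X) : Prop :=
  ∃ (n : ℕ) (q : Fin n → X → ℝ), (∀ j, Continuous (q j)) ∧
    ∀ v w, (∀ j, SignType.sign (q j v) = SignType.sign (q j w)) → v ∈ S → w ∈ S

lemma isOpen_sign_eq {X : Type*} [TopologicalSpace X] {q : X → ℝ} (hq : Continuous q) {v : X}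
    (hv : q v ≠ 0) : IsOpen {w | SignType.sign (q w) = SignType.sign (q v)} := by
  rcases lt_or_gt_of_ne hv with h | h
  · have : {w | SignType.sign (q w) = SignType.sign (q v)} = {w | q w < 0} := by
      ext w
      rw [mem_setOf_eq, sign_neg h, sign_eq_neg_one_iff, mem_setOf_eq]
    rw [this]
    exact isOpen_lt hq continuous_const
  · have : {w | SignType.sign (q w) = SignType.sign (q v)} = {w | 0 < q w} := by
      ext w
      rw [mem_setOf_eq, sign_pos h, sign_eq_one_iff, mem_setOf_eq]
    rw [this]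
    exact isOpen_lt continuous_const hq

/-- A nonempty sign-determined set is relatively closed in some open set that it meets. -/
lemma SignDet.exists_open {X : Type*} [TopologicalSpace X] {S : Set X} (h : SignDet S)
    (hne : S.Nonempty) : ∃ U : Set X, IsOpen U ∧ (U ∩ S).Nonempty ∧ U ∩ closure S ⊆ S := by
  classical
  obtain ⟨n, q, hq, hS⟩ := h
  let Z : X → Finset (Fin n) := fun v => Finset.univ.filter (fun j => q j v = 0)
  have hmin : ∃ v ∈ S, ∀ w ∈ S, (Z v).card ≤ (Z w).card := by
    have h1 : ((fun v => (Z v).card) '' S).Nonempty := hne.image _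
    obtain ⟨v, hv, hv2⟩ := Nat.sInf_mem h1
    refine ⟨v, hv, fun w hw => ?_⟩
    have h2 : (Z v).card = sInf ((fun v => (Z v).card) '' S) := hv2
    rw [h2]
    exact Nat.sInf_le ⟨w, hw, rfl⟩
  obtain ⟨v, hv, hvmin⟩ := hmin
  set U : Set X := ⋂ j : {j : Fin n // q j v ≠ 0},
    {w | SignType.sign (q j w) = SignType.sign (q j v)} with hU
  have hUo : IsOpen U := isOpen_iInter_of_finite fun j => isOpen_sign_eq (hq j) j.2
  have hmemU : ∀ w, w ∈ U ↔ ∀ j, q j v ≠ 0 → SignType.sign (q j w) = SignType.sign (q j v) := by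
    intro w
    rw [hU, mem_iInter]
    exact ⟨fun h j hj => h ⟨j, hj⟩, fun h j => h j j.2⟩
  refine ⟨U, hUo, ⟨v, (hmemU v).2 fun _ _ => rfl, hv⟩, ?_⟩
  rintro w ⟨hwU, hwS⟩
  have hcl : w ∈ closure (U ∩ S) := hUo.inter_closure ⟨hwU, hwS⟩
  refine hS v w (fun j => ?_) hv
  by_cases hj : q j v = 0
  · have h1 : U ∩ S ⊆ {s | q j s = 0} := by
      rintro s ⟨hsU, hsS⟩
      have h2 : Z s ⊆ Z v := by
        intro i hi
        simp only [Z, Finset.mem_filter, Finset.mem_univ, true_and] at hi ⊢
        by_contra hcon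
        have h3 := (hmemU s).1 hsU i hcon
        rw [hi, sign_zero] at h3
        exact hcon (sign_eq_zero_iff.1 h3.symm)
      have h4 : Z s = Z v := Finset.eq_of_subset_of_card_le h2 (hvmin s hsS)
      have h5 : j ∈ Z v := by simp [Z, hj]
      rw [← h4] at h5
      simpa [Z] using h5
    have h6 : IsClosed {s | q j s = 0} := isClosed_eq (hq j) continuous_const
    have h7 : w ∈ {s | q j s = 0} := closure_minimal h1 h6 hcl
    rw [hj, show q j w = 0 from h7]
  · exact ((hmemU w).1 hwU j hj).symm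

/-- Two points lying in the closures of each other's orbits lie in the same orbit. -/
lemma mem_orbit_of_closure {G X : Type*} [Group G] [TopologicalSpace X] [MulAction G X]
    (hc : ∀ g : G, Continuous fun x : X => g • x) {x y : X}
    (hx : SignDet (MulAction.orbit G x)) (h1 : y ∈ closure (MulAction.orbit G x))
    (h2 : x ∈ closure (MulAction.orbit G y)) : y ∈ MulAction.orbit G x := by
  have inv : ∀ {a b : X}, a ∈ closure (MulAction.orbit G b) → ∀ g : G,
      g • a ∈ closure (MulAction.orbit G b) := by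
    intro a b hab g
    refine map_mem_closure (hc g) hab fun c hcb => ?_
    obtain ⟨k, rfl⟩ := hcb
    exact ⟨g * k, mul_smul g k b⟩
  obtain ⟨U, hU, ⟨z, hzU, hz⟩, hUc⟩ := hx.exists_open ⟨x, MulAction.mem_orbit_self x⟩
  obtain ⟨g, rfl⟩ := hz
  have h3 : g • x ∈ closure (MulAction.orbit G y) := inv h2 g
  obtain ⟨w, hwU, k, rfl⟩ := mem_closure_iff.1 h3 U hU hzU
  have h4 : k • y ∈ closure (MulAction.orbit G x) := inv h1 k
  obtain ⟨l, hl⟩ := hUc ⟨hwU, h4⟩
  refine ⟨k⁻¹ * l, ?_⟩
  show (k⁻¹ * l) • x = y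
  rw [mul_smul]
  have hl' : l • x = k • y := hl
  rw [hl', inv_smul_smul]

end Pool.Agent.Q190.LA
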